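import Mathlib

/-! The curve `y ^ 2 = x ^ 3 + x` and its endomorphism `2 + i`. -/

set_option autoImplicit false

namespace Pool.Agent.P.MP_8d2e9f_nt.PR

open WeierstrassCurve.Affine WeierstrassCurve.Affine.Point Polynomial
open scoped Classical

noncomputable section

variable (F : Type) [Field F]

/-- the curve -/
def W : WeierstrassCurve.Affine F := ⟨0, 0, 0, 1, 0⟩

variable {F}

theorem negY_eq (x y : F) : (W F).negY x y = -y := by simp [W, negY]

theorem addX_eq (x₁ x₂ l : F) : (W F).addX x₁ x₂ l = l ^ 2 - x₁ - x₂ := by simp [W, addX]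

theorem addY_eq (x₁ x₂ y l : F) : (W F).addY x₁ x₂ y l = -(l * (l ^ 2 - x₁ - x₂ - x₁) + y) := by
  rw [addY, negY_eq, negAddY, addX_eq]

theorem slope_eq (x₁ x₂ y₁ y₂ : F) : (W F).slope x₁ x₂ y₁ y₂ =
    if x₁ = x₂ then if y₁ = -y₂ then 0 else (3 * x₁ ^ 2 + 1) / (2 * y₁)
    else (y₁ - y₂) / (x₁ - x₂) := by
  simp [WeierstrassCurve.Affine.slope, W, negY, two_mul]

/-- the abscissa -/
def xc : (W F).Point → F
  | 0 => 0
  | .some x _ _ => x

theorem xc_neg (P : (W F).Point) : xc (-P) = xc P := by cases P <;> rfl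

theorem xc_iff {P Q : (W F).Point} (hP : P ≠ 0) (hQ : Q ≠ 0) (h : xc P = xc Q) :
    P = Q ∨ P = -Q := by
  rcases P with _ | ⟨x, y, h₁⟩
  · exact absurd rfl hP
  rcases Q with _ | ⟨x', y', h₂⟩
  · exact absurd rfl hQ
  exact X_eq_iff.1 h

variable [CharZero F]

theorem ns {x y : F} : (W F).Nonsingular x y ↔ y ^ 2 = x ^ 3 + x := by
  rw [← equation_iff_nonsingular_of_Δ_ne_zero (by
    simp [W, WeierstrassCurve.Δ, WeierstrassCurve.b₂, WeierstrassCurve.b₄, WeierstrassCurve.b₆,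
      WeierstrassCurve.b₈]), equation_iff]
  simp [W]

theorem tw_ns (σ : F →+* F) {u : F} (hu : u ^ 4 = 1) {x y : F} (h : (W F).Nonsingular x y) :
    (W F).Nonsingular (u ^ 2 * σ x) (u ^ 3 * σ y) := by
  have h1 := congrArg σ (ns.1 h)
  simp only [map_add, map_pow] at h1
  exact ns.2 (by linear_combination u ^ 6 * h1 + u ^ 2 * σ x * hu)

/-- twisted semilinear automorphisms -/
def tw (σ : F →+* F) {u : F} (hu : u ^ 4 = 1) : (W F).Point →+ (W F).Point where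
  toFun P := match P with
    | 0 => 0
    | .some _ _ h => .some _ _ (tw_ns σ hu h)
  map_zero' := rfl
  map_add' := by
    rintro (_ | ⟨x₁, y₁, h₁⟩) (_ | ⟨x₂, y₂, h₂⟩)
    any_goals rfl
    have u0 : u ≠ 0 := by
      rintro rfl
      simp at hu
    have e1 : u ^ 2 * σ x₁ = u ^ 2 * σ x₂ ↔ x₁ = x₂ := by simp [u0, σ.injective.eq_iff]
    have e2 : u ^ 3 * σ y₁ = -(u ^ 3 * σ y₂) ↔ y₁ = -y₂ := by
      rw [← mul_neg, ← map_neg]
      simp [u0, -map_neg, σ.injective.eq_iff]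
    by_cases hxy : x₁ = x₂ ∧ y₁ = (W F).negY x₂ y₂
    · rw [add_of_Y_eq hxy.left hxy.right,
        add_of_Y_eq (e1.2 hxy.1) (by rw [negY_eq, e2, hxy.2, negY_eq])]
    · have hs : (W F).slope (u ^ 2 * σ x₁) (u ^ 2 * σ x₂) (u ^ 3 * σ y₁) (u ^ 3 * σ y₂) =
          u * σ ((W F).slope x₁ x₂ y₁ y₂) := by
        simp only [slope_eq, e1, e2]
        split_ifs
        · simp
        · have : u = (u ^ 3)⁻¹ := eq_inv_of_mul_eq_one_left (by rw [← pow_succ', hu])
          simp only [map_div₀, map_add, map_mul, map_pow, map_ofNat, map_one]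
          rw [mul_pow, ← pow_mul, hu, one_mul, mul_left_comm, mul_comm (u ^ 3), ← div_div,
            div_eq_mul_inv _ (u ^ 3), ← this, mul_comm]
        · simp only [map_div₀, map_sub]
          rw [← mul_sub, ← mul_sub, mul_div_mul_comm, pow_succ, mul_div_cancel_left₀ _
            (pow_ne_zero 2 u0)]
      rw [add_some hxy, add_some fun h => hxy ⟨e1.1 h.1, by
        rw [negY_eq, ← e2, h.2, negY_eq]⟩]
      simp only [some.injEq, addX_eq, addY_eq, hs, map_sub, map_pow, map_neg, map_add, map_mul]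
      constructor <;> ring

theorem tw_some (σ : F →+* F) {u : F} (hu : u ^ 4 = 1) {x y : F} (h : (W F).Nonsingular x y) :
    tw σ hu (some _ _ h) = some _ _ (tw_ns σ hu h) := rfl

/-- the Galois action -/
def gal (σ : F →+* F) : (W F).Point →+ (W F).Point := tw σ (one_pow 4)

theorem xc_gal (σ : F →+* F) (P : (W F).Point) : xc (gal σ P) = σ (xc P) := by
  rcases P with _ | ⟨x, y, h⟩
  · exact σ.map_zero.symm
  · simp [gal, tw_some, xc]

theorem gal_ne (σ : F →+* F) {P : (W F).Point} (h : P ≠ 0) : gal σ P ≠ 0 := by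
  rcases P with _ | ⟨x, y, h'⟩
  · exact absurd rfl h
  · exact some_ne_zero (tw_ns σ (one_pow 4) h')

variable {i : F} (hi : i ^ 2 = -1)

include hi in
theorem i4 : (-i) ^ 4 = 1 := by linear_combination (i ^ 2 - 1) * hi

/-- complex multiplication by `i` -/
def io : (W F).Point →+ (W F).Point := tw (RingHom.id F) (i4 hi)

theorem io_some {x y : F} (h : (W F).Nonsingular x y) :
    ∃ h' : (W F).Nonsingular (-x) (i * y), io hi (some _ _ h) = some _ _ h' := by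
  refine ⟨ns.2 (by linear_combination y ^ 2 * hi - ns.1 h), ?_⟩
  simp only [io, tw_some, some.injEq, RingHom.id_apply]
  exact ⟨by linear_combination x * hi, by linear_combination (-i * y) * hi⟩

theorem io_io (P : (W F).Point) : io hi (io hi P) = -P := by
  rcases P with _ | ⟨x, y, h⟩
  · rfl
  obtain ⟨h1, e1⟩ := io_some hi h
  obtain ⟨h2, e2⟩ := io_some hi h1
  rw [e1, e2, neg_some, some.injEq, negY_eq]
  exact ⟨neg_neg x, by linear_combination y * hi⟩

theorem gal_io (σ : F →+* F) (hσ : σ i = i) (P : (W F).Point) :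
    gal σ (io hi P) = io hi (gal σ P) := by
  rcases P with _ | ⟨x, y, h⟩
  · rfl
  obtain ⟨h1, e1⟩ := io_some hi h
  obtain ⟨h2, e2⟩ := io_some hi (tw_ns σ (one_pow 4) h)
  rw [e1, gal, tw_some, tw_some, e2]
  simp [hσ]

/-- multiplication by `2 + i` -/
def pm : (W F).Point →+ (W F).Point := AddMonoidHom.id _ + io hi + AddMonoidHom.id _

theorem pm_apply (P : (W F).Point) : pm hi P = P + io hi P + P := rfl

theorem chord {x₁ x₂ y₁ y₂ : F} (h₁ : (W F).Nonsingular x₁ y₁) (h₂ : (W F).Nonsingular x₂ y₂)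
    (hx : x₁ ≠ x₂) : ∃ (l s t : F) (h : (W F).Nonsingular s t), some _ _ h₁ + some _ _ h₂ =
      some s t h ∧ l * (x₁ - x₂) = y₁ - y₂ ∧ s = l ^ 2 - x₁ - x₂ ∧ t = -(l * (s - x₁) + y₁) :=
  ⟨_, _, _, _, add_of_X_ne hx, by
    rw [slope_of_X_ne hx, div_mul_cancel₀ _ (sub_ne_zero.2 hx)], addX_eq _ _ _, by
    rw [addY_eq, addX_eq]⟩

theorem form {x y : F} (h : (W F).Nonsingular x y) :
    ((1 - 2 * i) * x ^ 2 + 1 = 0 → pm hi (some _ _ h) = 0) ∧
    ((1 - 2 * i) * x ^ 2 + 1 ≠ 0 → pm hi (some _ _ h) ≠ 0 ∧ xc (pm hi (some _ _ h)) *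
      ((1 - 2 * i) * x ^ 2 + 1) ^ 2 = -x * (x ^ 2 + (1 - 2 * i)) ^ 2) := by
  obtain ⟨h1, e1⟩ := io_some hi h
  have hy := ns.1 h
  rw [pm_apply, e1]
  by_cases hx : x = 0
  · subst hx
    obtain rfl : y = 0 := by simpa using hy
    rw [add_of_Y_eq (by simp) (by rw [negY_eq]; simp), zero_add]
    simp [xc, some_ne_zero]
  obtain ⟨l, s, t, h3, e3, hl, hs, ht⟩ := chord h h1 fun e => hx (by linear_combination e / 2)
  rw [e3]
  have h4 : 2 * x * (s - x) = -i * ((1 - 2 * i) * x ^ 2 + 1) := by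
    refine mul_left_cancel₀ (mul_ne_zero two_ne_zero hx) ?_
    linear_combination (4 * x ^ 2) * hs + (y - i * y + 2 * x * l) * hl + (y ^ 2 - 4 * x ^ 3) * hi -
      2 * i * hy
  have i0 : i ≠ 0 := by
    rintro rfl
    simp at hi
  refine ⟨fun h5 => ?_, fun h5 => ?_⟩
  · have h6 : s = x := by simpa [h5, hx, sub_eq_zero] using h4
    exact add_of_Y_eq h6 (by rw [negY_eq, ht, h6]; simp)
  · obtain ⟨m, s', t', h7, e7, hm, hs', -⟩ := chord h3 h fun e => h5 (by simpa [e, i0] using h4)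
    rw [e7]
    refine ⟨some_ne_zero _, ?_⟩
    obtain ⟨d, hd⟩ : ∃ d, d = (1 - 2 * i) * x ^ 2 + 1 := ⟨_, rfl⟩
    rw [← hd] at h4 ⊢
    have h8 : m * d * (2 * x) = y * ((i - 1) * d - 8 * i * x ^ 2) := by
      linear_combination 4 * i * x ^ 2 * (hm + ht) - 2 * i * x * (m + l) * h4 +
        2 * x * (m + l) * d * hi - d * hl
    refine mul_left_cancel₀ (pow_ne_zero 2 (mul_ne_zero two_ne_zero hx)) ?_
    change _ * (s' * _) = _
    have h9 : (2 * x) ^ 2 * (s' * d ^ 2) = (x ^ 3 + x) * ((i - 1) * d - 8 * i * x ^ 2) ^ 2 -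
        2 * x * d ^ 2 * (4 * x ^ 2 - i * d) := by
      linear_combination (2 * x * d) ^ 2 * hs' + (m * d * (2 * x) + y * ((i - 1) * d -
        8 * i * x ^ 2)) * h8 + ((i - 1) * d - 8 * i * x ^ 2) ^ 2 * hy - 2 * x * d ^ 2 * h4
    rw [h9, hd]
    clear * - hi
    grind

theorem dbl {P : (W F).Point} (h2 : 2 • P ≠ 0) : 4 * (xc P ^ 3 + xc P) ≠ 0 ∧
    xc (2 • P) = (xc P ^ 2 - 1) ^ 2 / (4 * (xc P ^ 3 + xc P)) := by
  rcases P with _ | ⟨x, y, h⟩
  · exact absurd (nsmul_zero 2) h2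
  rw [two_nsmul] at h2 ⊢
  have hy : y ≠ -y := fun e => h2 (add_self_of_Y_eq (by rwa [negY_eq]))
  have y0 : y ≠ 0 := fun e => hy (by simp [e])
  rw [add_self_of_Y_ne (by rwa [negY_eq])]
  simp only [xc, addX_eq, slope_eq, if_true, if_neg hy, ← ns.1 h]
  refine ⟨by simp [y0], ?_⟩
  field_simp
  linear_combination (-32 * x) * ns.1 h

theorem sp {P Q : (W F).Point} (hP : P ≠ 0) (hQ : Q ≠ 0) (hx : xc P ≠ xc Q) :
    P + Q ≠ 0 ∧ P - Q ≠ 0 ∧
      xc (P + Q) * xc (P - Q) * (xc P - xc Q) ^ 2 = (xc P * xc Q - 1) ^ 2 ∧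
      (xc (P + Q) + xc (P - Q)) * (xc P - xc Q) ^ 2 = 2 * (xc P * xc Q + 1) * (xc P + xc Q) := by
  rcases P with _ | ⟨x, y, h₁⟩
  · exact absurd rfl hP
  rcases Q with _ | ⟨x', y', h₂⟩
  · exact absurd rfl hQ
  rw [sub_eq_add_neg (some x y h₁), neg_some]
  obtain ⟨l, s, t, h3, e3, hl, hs, -⟩ := chord h₁ h₂ hx
  obtain ⟨m, s', t', h4, e4, hm, hs', -⟩ := chord h₁ ((nonsingular_neg ..).2 h₂) hx
  rw [e3, e4]
  rw [negY_eq] at hm
  have e1 := ns.1 h₁
  have e2 := ns.1 h₂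
  have h5 : s * (x - x') ^ 2 = (x * x' + 1) * (x + x') - 2 * y * y' := by
    linear_combination (x - x') ^ 2 * hs + (l * (x - x') + y - y') * hl + e1 + e2
  have h6 : s' * (x - x') ^ 2 = (x * x' + 1) * (x + x') + 2 * y * y' := by
    linear_combination (x - x') ^ 2 * hs' + (m * (x - x') + y + y') * hm + e1 + e2
  refine ⟨some_ne_zero _, some_ne_zero _, mul_right_cancel₀ (pow_ne_zero 2 (sub_ne_zero.2 hx)) ?_,
    by simp only [xc]; linear_combination h5 + h6⟩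
  simp only [xc]
  linear_combination s' * (x - x') ^ 2 * h5 + ((x * x' + 1) * (x + x') - 2 * y * y') * h6 -
    4 * y' ^ 2 * e1 - 4 * (x ^ 3 + x) * e2

theorem pm_five (P : (W F).Point) : 4 • pm hi P - pm hi (pm hi P) = 5 • P := by
  simp only [pm_apply, map_add, io_io]
  abel

theorem ker_cyc {P Q : (W F).Point} (h0 : P ≠ 0) (hP : pm hi P = 0) (hQ : pm hi Q = 0) :
    Q ∈ AddSubgroup.zmultiples P := by
  have m1 := AddSubgroup.mem_zmultiples P
  have m2 : io hi P ∈ AddSubgroup.zmultiples P := by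
    have : io hi P = pm hi P - P - P := by
      rw [pm_apply]
      abel
    rw [this, hP]
    exact sub_mem (sub_mem (zero_mem _) m1) m1
  rcases P with _ | ⟨x, y, h₁⟩
  · exact absurd rfl h0
  rcases Q with _ | ⟨x', y', h₂⟩
  · exact zero_mem _
  have e1 := not_not.1 fun e => ((form hi h₁).2 e).1 hP
  have e2 := not_not.1 fun e => ((form hi h₂).2 e).1 hQ
  have b0 : 1 - 2 * i ≠ 0 := fun e => by simp [e] at e1
  obtain ⟨h3, e3⟩ := io_some hi h₁
  rw [e3] at m2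
  rcases sq_eq_sq_iff_eq_or_eq_neg.1 (mul_left_cancel₀ b0 (add_right_cancel (e2.trans e1.symm)))
    with e | e
  · rcases (X_eq_iff (h₁ := h₂) (h₂ := h₁)).1 e with e | e <;> rw [e]
    exacts [m1, neg_mem m1]
  · rcases (X_eq_iff (h₁ := h₂) (h₂ := h3)).1 e with e | e <;> rw [e]
    exacts [m2, neg_mem m2]

theorem gal_pm (σ : F →+* F) (hσ : σ i = i) (P : (W F).Point) :
    gal σ (pm hi P) = pm hi (gal σ P) := by
  simp only [pm_apply, map_add, gal_io hi σ hσ]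

theorem gal_comp (σ ρ : F →+* F) (P : (W F).Point) : xc (gal σ (gal ρ P)) = σ (ρ (xc P)) := by
  rw [xc_gal, xc_gal]

variable [IsAlgClosed F]

theorem lift (x : F) : ∃ y, (W F).Nonsingular x y := by
  obtain ⟨y, hy⟩ := IsAlgClosed.exists_pow_nat_eq (x ^ 3 + x) two_pos
  exact ⟨y, ns.2 hy⟩

include hi in
theorem b_ne : (1 - 2 * i) ^ 2 ≠ 1 ∧ 1 - 2 * i ≠ 0 := by
  refine ⟨fun e => ?_, fun e => ?_⟩
  · have : (32 : F) = 0 := by linear_combination (4 * i - 4) * e + (32 - 16 * i) * hi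
    simp at this
  · have : (5 : F) = 0 := by linear_combination (1 + 2 * i) * e + 4 * hi
    simp at this

theorem ker_ne : ∃ P : (W F).Point, P ≠ 0 ∧ pm hi P = 0 := by
  obtain ⟨x, hx⟩ := IsAlgClosed.exists_pow_nat_eq (-(1 - 2 * i)⁻¹) two_pos
  obtain ⟨y, h⟩ := lift x
  exact ⟨_, some_ne_zero h, (form hi h).1 (by rw [hx, mul_neg, mul_inv_cancel₀ (b_ne hi).2]; simp)⟩

theorem surj (Q : (W F).Point) : ∃ P, pm hi P = Q := by
  rcases Q with _ | ⟨u, v, h⟩
  · exact ⟨0, map_zero _⟩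
  obtain ⟨x, hx⟩ := IsAlgClosed.exists_root (p := X * (X ^ 2 + C (1 - 2 * i)) ^ 2 +
    C u * (C (1 - 2 * i) * X ^ 2 + 1) ^ 2) (by
      rw [show degree _ = 5 by compute_degree!]
      decide)
  simp only [IsRoot, eval_add, eval_mul, eval_pow, eval_X, eval_C, eval_one] at hx
  have h1 : (1 - 2 * i) * x ^ 2 + 1 ≠ 0 := fun e => by
    rw [e] at hx
    have x0 : x ≠ 0 := fun e' => by simp [e'] at e
    have : x ^ 2 + (1 - 2 * i) = 0 := by simpa [x0] using hx
    exact (b_ne hi).1 (by linear_combination (1 - 2 * i) * this - e)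
  obtain ⟨y, h'⟩ := lift x
  obtain ⟨h2, h3⟩ := (form hi h').2 h1
  rcases xc_iff h2 (some_ne_zero h) (mul_right_cancel₀ (pow_ne_zero 2 h1)
    (h3.trans (by simp only [xc]; linear_combination -hx))) with e | e
  · exact ⟨_, e⟩
  · exact ⟨_, by rw [map_neg, e, neg_neg]⟩

end

end Pool.Agent.P.MP_8d2e9f_nt.PR
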