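import Pool.Agent.P.MP_8d2e9f_nt.AO.TABG

/-! Unramified finite layers and roots of unity. -/

set_option autoImplicit false

namespace Pool.Agent.P.MP_8d2e9f_nt.PR

open Polynomial Finset Pool.Agent.P.MP_8d2e9f_nt.G Pool.Agent.P.MP_8d2e9f_nt.AO
open scoped IntermediateField

/-- trivial inertia gives no new absolute values -/
theorem unr {E G : Type*} [NormedField E] [IsUltrametricDist E] [Group G] [Fintype G]
    [MulSemiringAction G E] (hiso : ∀ (g : G) (x : E), ‖g • x‖ = ‖x‖)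
    (hI : ∀ g : G, (∀ z : E, ‖z‖ ≤ 1 → ‖g • z - z‖ < 1) → g = 1) {v : E} (hv0 : v ≠ 0) :
    ∃ a : E, (∀ g : G, g • a = a) ∧ ‖a‖ = ‖v‖ := by
  classical
  let O := (NormedField.valuation (K := E)).valuationSubring
  have mO : ∀ z : E, z ∈ O ↔ ‖z‖ ≤ 1 := fun z => by
    rw [Valuation.mem_valuationSubring_iff]
    exact NNReal.coe_le_coe.symm
  let res := IsLocalRing.residue O
  have r0 : ∀ a : O, res a = 0 ↔ ‖(a : E)‖ < 1 := fun a => by
    rw [IsLocalRing.residue_eq_zero_iff, Valuation.mem_maximalIdeal_iff]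
    exact NNReal.coe_lt_coe.symm
  let act : G → O →+* O := fun g => ((MulSemiringAction.toRingHom G E g).comp O.subtype).codRestrict
    O fun a => (mO _).2 ((hiso g a).le.trans ((mO _).1 a.2))
  have ha : ∀ g (a : O), (act g a : E) = g • (a : E) := fun _ _ => rfl
  let χ : G → O →* IsLocalRing.ResidueField O := fun g => (res.comp (act g) : O →+* _)
  have hχ : Function.Injective χ := fun g h e => by
    rw [← inv_mul_eq_one]
    refine hI _ fun z hz => ?_
    have h1 : res (act h ⟨z, (mO z).2 hz⟩ - act g ⟨z, (mO z).2 hz⟩) = 0 := by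
      rw [map_sub, sub_eq_zero]
      exact (DFunLike.congr_fun e _).symm
    rw [← hiso g, smul_sub, ← mul_smul, mul_inv_cancel_left]
    exact (r0 _).1 h1
  have n1 : ∀ g : G, ‖g • v / v‖ = 1 := fun g => by
    rw [norm_div, hiso, div_self (norm_ne_zero_iff.2 hv0)]
  let c : G → O := fun g => ⟨g • v / v, (mO _).2 (n1 g).le⟩
  obtain ⟨b, h1⟩ : ∃ a : O, ∑ g, res (c g) * χ g a ≠ 0 := by
    by_contra h0
    push Not at h0
    have h1 := Fintype.linearIndependent_iff.1 ((linearIndependent_monoidHom O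
      (IsLocalRing.ResidueField O)).comp χ hχ) (fun g => res (c g)) (by
        ext a
        simpa using h0 a) 1
    exact ((r0 _).1 h1).ne (n1 1)
  refine ⟨∑ g : G, g • (v * b), fun h => ?_, ?_⟩
  · rw [smul_sum]
    exact Fintype.sum_equiv (Equiv.mulLeft h) _ _ fun q => (mul_smul h q _).symm
  · have e : ∑ g : G, g • (v * b) = v * (∑ g, c g * act g b : O) := by
      push_cast
      rw [mul_sum]
      refine sum_congr rfl fun g _ => ?_
      rw [smul_mul', ha]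
      simp only [c]
      field_simp
    have h5 : ‖((∑ g, c g * act g b : O) : E)‖ = 1 := by
      refine le_antisymm ((mO _).1 (Subtype.prop _)) (not_lt.1 fun h => h1 ?_)
      rw [← r0, map_sum] at h
      simp only [map_mul] at h
      exact h
    rw [e, norm_mul, h5, mul_one]

variable {p : ℕ} [hp : Fact p.Prime]

theorem p_lt : (p : ℝ)⁻¹ < 1 := inv_lt_one_of_one_lt₀ (by exact_mod_cast hp.out.one_lt)

/-- the decomposition group -/
theorem dec (K : IF) [Fd K] (j : Qbar →+* Om p) : ∃ D : Subgroup (GK K),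
    (∀ ρ ∈ D, ∀ x, ‖j (ρ x)‖ = ‖j x‖) ∧ ∀ a, (∀ ρ ∈ D, ρ a = a) → ‖j a‖ < 1 →
      ‖j a‖ ^ Module.finrank ℚ K ≤ (p : ℝ)⁻¹ := by
  let : Algebra Qbar (Om p) := j.toAlgebra
  have := abg_top K
  let D : Subgroup (GK K) :=
    { carrier := {g | ∀ z, ‖j (g z)‖ = ‖j z‖}
      one_mem' := fun _ => rfl
      mul_mem' := fun h h' z => by rw [AlgEquiv.mul_apply, h, h']
      inv_mem' := fun {g} h z => by
        rw [← h]
        exact congrArg (‖j ·‖) (g.apply_symm_apply z) }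
  refine ⟨D, fun _ h => h, fun a ha h1 => ?_⟩
  obtain ⟨α, hα⟩ := Field.exists_primitive_element ℚ K
  have i1 : ∀ x : Om p, IsIntegral ℚ_[p] x := fun x => (Algebra.IsAlgebraic.isAlgebraic x).isIntegral
  have h2 : ∀ c : K, j c ∈ ℚ_[p]⟮j α⟯ := fun c => by
    have hc : c ∈ ℚ⟮α⟯ := hα ▸ IntermediateField.mem_top
    induction hc using IntermediateField.adjoin_induction with
    | mem z hz => exact hz ▸ IntermediateField.mem_adjoin_simple_self _ _
    | algebraMap c => simp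
    | add a b _ _ ha hb => simpa using add_mem ha hb
    | inv a _ ha => simpa using inv_mem ha
    | mul a b _ _ ha hb => simpa using mul_mem ha hb
  have h3 : j a ∈ ℚ_[p]⟮j α⟯ := by
    rw [← InfiniteGalois.fixedField_fixingSubgroup ℚ_[p]⟮j α⟯, IntermediateField.mem_fixedField_iff]
    intro γ hγ
    let ψ : Qbar →ₐ[K] Om p :=
      { (γ : Om p →+* Om p).comp j with
        commutes' := fun c => (IntermediateField.mem_fixingSubgroup_iff _ γ).1 hγ _ (h2 c) }
    have hg : ∀ z, j (ψ.restrictNormal' Qbar z) = γ (j z) := fun z =>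
      ψ.restrictNormal_commutes Qbar z
    rw [← hg, ha _ fun z => by rw [hg]; exact (spectralNorm_eq_of_equiv γ _).symm]
  have h4 : (minpoly ℚ_[p] (j a)).natDegree ≤ Module.finrank ℚ K := by
    have := IntermediateField.adjoin.finiteDimensional (i1 (j α))
    have h5 := minpoly.natDegree_le (A := ℚ_[p]) (⟨_, h3⟩ : ℚ_[p]⟮j α⟯)
    rw [IntermediateField.minpoly_eq, IntermediateField.adjoin.finrank (i1 _)] at h5
    refine h5.trans (le_trans ?_ (minpoly.natDegree_le α))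
    rw [← natDegree_map (algebraMap ℚ ℚ_[p]) (p := minpoly ℚ α)]
    refine natDegree_le_of_dvd (minpoly.dvd _ _ ?_)
      (Polynomial.map_ne_zero (minpoly.ne_zero (Algebra.IsIntegral.isIntegral α)))
    rw [aeval_map_algebraMap]
    exact (aeval_algHom_apply (j.comp (algebraMap K Qbar)).toRatAlgHom α _).trans (by simp)
  have h6 := (minpoly.natDegree_pos (i1 (j a))).ne'
  have h5 : ‖j a‖ ^ (minpoly ℚ_[p] (j a)).natDegree = ‖(minpoly ℚ_[p] (j a)).coeff 0‖ := by
    rw [← PadicAlgCl.spectralNorm_eq, spectralNorm.spectralNorm_eq_norm_coeff_zero_rpow, one_div,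
      Real.rpow_inv_natCast_pow (norm_nonneg _) h6]
  refine (pow_le_pow_of_le_one (norm_nonneg _) h1.le h4).trans ?_
  have h7 := pow_lt_one₀ (norm_nonneg _) h1 h6
  rw [h5] at h7 ⊢
  rw [← zpow_neg_one, Padic.norm_le_pow_iff_norm_lt_pow_add_one]
  simpa using h7

theorem layer (K : IF) [Fd K] (j : Qbar →+* Om p) {S : Set Qbar} (hS : S.Finite)
    (hab : ∀ x ∈ S, Ab K x) (hst : ∀ σ : GK K, ∀ x ∈ S, σ x ∈ S)
    (hin : ∀ x ∈ S, ‖j x‖ ≤ 1 ∧ ∀ y ∈ S, ‖j x - j y‖ < 1 → x = y) {w : Qbar}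
    (hw : w ∈ IntermediateField.adjoin K S) (h1 : ‖j w‖ < 1) :
    ‖j w‖ ^ Module.finrank ℚ K ≤ (p : ℝ)⁻¹ := by
  classical
  obtain ⟨D, d1, d2⟩ := dec K j
  rcases eq_or_ne w 0 with rfl | w0
  · exact d2 0 (fun ρ _ => map_zero ρ) h1
  set E := IntermediateField.adjoin K S
  have := abg_abel (abg_adj hab)
  have := hS.to_subtype
  have : FiniteDimensional K E :=
    IntermediateField.finiteDimensional_adjoin fun x _ => (int_Q x).tower_top
  let φ : E →+* Om p := j.comp (algebraMap E Qbar)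
  let : NormedField E := NormedField.induced E (Om p) φ φ.injective
  have e : ∀ x : E, ‖x‖ = ‖j x‖ := fun _ => rfl
  have : IsUltrametricDist E :=
    IsUltrametricDist.isUltrametricDist_of_forall_norm_add_le_max_norm fun x y => by
      simp only [e, IntermediateField.coe_add, map_add]
      exact IsUltrametricDist.norm_add_le_max _ _
  let ρ : GK K →* (E ≃ₐ[K] E) := AlgEquiv.restrictNormalHom E
  have hρ : ∀ σ (x : E), (ρ σ x : Qbar) = σ x := fun σ x => AlgEquiv.restrictNormalHom_apply _ σ x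
  obtain ⟨a, h2, h3⟩ := unr (E := E) (G := D.map ρ) (v := ⟨w, hw⟩) (by
    rintro ⟨_, σ, hσ, rfl⟩ x
    exact (congrArg (‖j ·‖) (hρ σ x)).trans (d1 σ hσ x)) (by
    rintro ⟨_, σ, hσ, rfl⟩ h
    refine Subtype.ext (AlgEquiv.coe_toAlgHom_injective
      (IntermediateField.adjoin_algHom_ext K fun x hx => Subtype.ext ((hρ σ _).trans ?_)))
    refine (hin _ (hst σ x hx)).2 x hx ?_
    have := h ⟨x, IntermediateField.subset_adjoin K S hx⟩ (hin x hx).1
    rw [← map_sub]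
    exact (congrArg (fun t => ‖j (t - x)‖) (hρ σ ⟨x, _⟩)).symm.trans_lt this)
    fun h => w0 (congrArg Subtype.val h)
  rw [e, e] at h3
  rw [← h3] at h1 ⊢
  exact d2 a (fun σ hσ => (hρ σ a).symm.trans (congrArg Subtype.val (h2 ⟨_, σ, hσ, rfl⟩))) h1

theorem root_norm {ζ : Om p} {k m : ℕ} (h : IsPrimitiveRoot ζ (p ^ (k + 1))) :
    ‖2 - (ζ + ζ⁻¹)‖ < 1 ∧ (‖2 - (ζ + ζ⁻¹)‖ ^ m ≤ (p : ℝ)⁻¹ → p ^ (k + 1) ≤ 4 * m) := by
  have q0 : p ^ (k + 1) ≠ 0 := pow_ne_zero _ hp.out.ne_zero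
  have : NeZero (p ^ (k + 1)) := ⟨q0⟩
  have n1 : ∀ μ : Om p, μ ^ p ^ (k + 1) = 1 → ‖μ‖ = 1 := fun μ hμ =>
    (pow_eq_one_iff_of_nonneg (norm_nonneg _) q0).1 (by rw [← norm_pow, hμ, norm_one])
  have le : ∀ μ ν : Om p, IsPrimitiveRoot μ (p ^ (k + 1)) → ν ^ p ^ (k + 1) = 1 →
      ‖1 - ν‖ ≤ ‖1 - μ‖ := fun μ ν hμ hν => by
    obtain ⟨i, -, rfl⟩ := hμ.eq_pow_of_pow_eq_one hν
    rw [← mul_neg_geom_sum, norm_mul]
    exact mul_le_of_le_one_right (norm_nonneg _)
      (IsUltrametricDist.norm_sum_le_of_forall_le_of_nonneg zero_le_one fun k _ => by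
        rw [norm_pow, n1 μ hμ.pow_eq_one, one_pow])
  have h1 : ‖1 - ζ‖ ^ (p ^ (k + 1)).totient = (p : ℝ)⁻¹ := by
    have := congrArg (fun f => ‖eval 1 f‖) (cyclotomic_eq_prod_X_sub_primitiveRoots h)
    simp only [eval_one_cyclotomic_prime_pow, eval_prod, eval_sub, eval_X, eval_C, norm_prod] at this
    rw [← map_natCast (algebraMap ℚ_[p] _), PadicAlgCl.norm_extends, Padic.norm_p] at this
    rw [this, prod_congr rfl fun μ hμ => le_antisymm
      (le ζ μ h ((mem_primitiveRoots q0.bot_lt).1 hμ).pow_eq_one)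
      (le μ ζ ((mem_primitiveRoots q0.bot_lt).1 hμ) h.pow_eq_one), prod_const, h.card_primitiveRoots]
  have h2 : ‖2 - (ζ + ζ⁻¹)‖ = ‖1 - ζ‖ ^ 2 := by
    have := h.ne_zero q0
    rw [show 2 - (ζ + ζ⁻¹) = -((1 - ζ) ^ 2 / ζ) by field_simp; ring, norm_neg, norm_div, norm_pow,
      n1 ζ h.pow_eq_one, div_one]
  have h3 : ‖1 - ζ‖ < 1 := lt_of_pow_lt_pow_left₀ _ zero_le_one (by rw [h1, one_pow]; exact p_lt)
  rw [h2]
  refine ⟨pow_lt_one₀ (norm_nonneg _) h3 two_ne_zero, fun h4 => ?_⟩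
  rw [← h1, ← pow_mul, pow_le_pow_iff_right_of_lt_one₀ (norm_pos_iff.2 (sub_ne_zero.2
    (h.ne_one (Nat.one_lt_pow k.succ_ne_zero hp.out.one_lt)).symm)) h3,
    Nat.totient_prime_pow_succ hp.out] at h4
  have h5 : p ≤ 2 * (p - 1) := by have := hp.out.two_le; omega
  calc p ^ (k + 1) ≤ p ^ k * (2 * (p - 1)) := Nat.mul_le_mul_left _ h5
    _ = 2 * (p ^ k * (p - 1)) := by ring
    _ ≤ 4 * m := by omega

end Pool.Agent.P.MP_8d2e9f_nt.PR
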