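import Pool.Agent.P.MP_8d2e9f_nt.PR.Tow
import Pool.Agent.P.MP_8d2e9f_nt.PR.Loc
import Pool.Agent.P.MP_8d2e9f_nt.G.All

/-! An abelian extension of `ℚ(i)` with (P) and without (R). -/

set_option autoImplicit false

namespace Pool.Agent.P.MP_8d2e9f_nt.PR

open Polynomial Pool.Agent.P.MP_8d2e9f_nt.G Pool.Agent.P.MP_8d2e9f_nt.AO
open scoped IntermediateField

theorem two_pow (K : IF) [Fd K] : ∃ B : ℕ, ∀ (ζ : Qbar) (k n : ℕ), IsPrimitiveRoot ζ (2 ^ (k + 1)) →
    (∀ σ : GK K, (σ ^ (4 * 5 ^ n)) (ζ + ζ⁻¹) = ζ + ζ⁻¹) → 2 ^ (k + 1) ≤ B := by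
  let N := IntermediateField.normalClosure ℚ K Qbar
  have : Normal ℚ N := normalClosure.normal ℚ K Qbar
  obtain ⟨r, hr⟩ : ∃ r, r = Nat.card (N ≃ₐ[ℚ] N) := ⟨_, rfl⟩
  refine ⟨5 ^ (8 * r), fun ζ k n h hσ => ?_⟩
  have q0 : 0 < 2 ^ (k + 1) := by positivity
  have c5 : Nat.Coprime 5 (2 ^ (k + 1)) := Nat.Coprime.pow_right _ (by decide)
  obtain ⟨s, hs⟩ := minpoly.exists_algEquiv_of_root' (K := ℚ) (x := ζ ^ 5) (int_Q ζ).isAlgebraic (by
    rw [← cyclotomic_eq_minpoly_rat h q0, cyclotomic_eq_minpoly_rat (h.pow_of_coprime 5 c5) q0,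
      minpoly.aeval])
  have h1 : ∀ t, (s ^ t) ζ = ζ ^ 5 ^ t := fun t => by
    induction t with
    | zero => simp
    | succ t ih => rw [pow_succ', AlgEquiv.mul_apply, ih, map_pow, hs, ← pow_mul, pow_succ']
  let σ : GK K := AlgEquiv.ofRingEquiv (f := (s ^ r).toRingEquiv) fun c => by
    have := AlgEquiv.restrictNormalHom_apply N (s ^ r)
      ⟨c, IntermediateField.le_normalClosure K c.2⟩
    have h2 : (AlgEquiv.restrictNormalHom N : Gam →* (N ≃ₐ[ℚ] N)) (s ^ r) = 1 := by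
      rw [map_pow, hr, pow_card_eq_one']
    exact this.symm.trans (congrArg Subtype.val (AlgEquiv.congr_fun h2 _))
  have h2 : ∀ t, (σ ^ t) ζ = ζ ^ (5 ^ r) ^ t := fun t => by
    induction t with
    | zero => simp
    | succ t ih =>
      rw [pow_succ', AlgEquiv.mul_apply, ih, map_pow, show σ ζ = _ from h1 r, ← pow_mul, pow_succ']
  have h3 := hσ σ
  rw [map_add, map_inv₀, h2] at h3
  obtain ⟨e, he⟩ : ∃ e, e = (5 ^ r) ^ (4 * 5 ^ n) := ⟨_, rfl⟩
  rw [← he] at h3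
  have z0 := h.ne_zero q0.ne'
  have h4 : ζ ^ (e * e) = ζ ^ 1 := by
    have : (ζ ^ e - ζ) * (ζ ^ e - ζ⁻¹) = 0 := by
      field_simp at h3 ⊢
      linear_combination h3
    rcases mul_eq_zero.1 this with e1 | e1 <;> rw [sub_eq_zero] at e1
    · rw [pow_mul, e1, e1, pow_one]
    · rw [pow_mul, e1, inv_pow, e1, inv_inv, pow_one]
  rw [(h.isOfFinOrder q0.ne').pow_eq_pow_iff_modEq, ← h.eq_orderOf, ← ZMod.natCast_eq_natCast_iff,
    show e * e = (5 ^ (8 * r)) ^ 5 ^ n by rw [he]; ring, Nat.cast_pow, Nat.cast_one] at h4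
  have h5 := (ZMod.natCast_eq_natCast_iff _ _ _).2 (Nat.ModEq.pow_totient (c5.pow_left (8 * r)))
  rw [Nat.cast_pow, Nat.cast_one, Nat.totient_prime_pow_succ Nat.prime_two] at h5
  have h6 := pow_gcd_eq_one.2 ⟨h4, h5⟩
  rw [Nat.Coprime.gcd_eq_one (by simpa using Nat.Coprime.pow n k (by decide)), pow_one] at h6
  replace h6 := (ZMod.natCast_eq_natCast_iff _ 1 _).1 (h6.trans Nat.cast_one.symm)
  have h7 : 1 < 5 ^ (8 * r) := Nat.one_lt_pow (by have := hr ▸ Nat.card_pos; omega) (by decide)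
  exact (Nat.le_of_dvd (by omega) ((Nat.modEq_iff_dvd' h7.le).1 h6.symm)).trans (Nat.sub_le _ _)

theorem cyc_fin (F : Subfield Qbar) (B : ℕ) (h : ∀ (p k : ℕ) (ζ : Qbar), p.Prime →
    IsPrimitiveRoot ζ (p ^ (k + 1)) → ζ + ζ⁻¹ ∈ F → p ^ (k + 1) ≤ B) : (cyc F).Finite := by
  refine ((nthRootsFinset B.factorial (1 : Qbar)).finite_toSet.image fun ζ => ζ + ζ⁻¹).subset ?_
  rintro _ ⟨hF, ζ, hζ, rfl⟩
  refine ⟨ζ, (mem_nthRootsFinset B.factorial_pos 1).2 (orderOf_dvd_iff_pow_eq_one.1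
    ((Nat.dvd_iff_prime_pow_dvd_dvd _ _).2 fun p k hp ⟨m, hm⟩ => ?_)), rfl⟩
  rcases k with _ | k
  · simp
  have z0 := hζ.isUnit.ne_zero
  have h1 : ∀ t : ℕ, ζ ^ t + (ζ ^ t)⁻¹ ∈ F := fun t => by
    induction t using Nat.twoStepInduction with
    | zero => simpa using add_mem F.one_mem F.one_mem
    | one => simpa using hF
    | more t a b =>
      convert sub_mem (mul_mem hF b) a using 1
      field_simp
      ring
  exact Nat.dvd_factorial (pow_pos hp.pos _) (h p k _ hp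
    ((IsPrimitiveRoot.orderOf ζ).pow hζ.orderOf_pos (hm.trans (mul_comm _ _))) (h1 m))

theorem ex_i : ∃ i : Qbar, i ^ 2 = -1 ∧ ∀ (p : ℕ) [Fact p.Prime], p ≠ 2 →
    ‖(2 : Om p)‖ = 1 ∧ ∃ j : Qbar →+* Om p, ‖j (2 + i)‖ = 1 := by
  have nn : ∀ (p : ℕ) [Fact p.Prime] (q : ℕ), q.Prime → p ≠ q → ‖(q : Om p)‖ = 1 :=
    fun p hp q hq h => by
      rw [← map_natCast (algebraMap ℚ_[p] _), PadicAlgCl.norm_extends,
        Padic.norm_natCast_eq_one_iff, Nat.coprime_primes hp.out hq]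
      exact h
  have le : ∀ (p : ℕ) [Fact p.Prime] (j : Qbar →+* Om p) (i : Qbar), i ^ 2 = -1 →
      ‖j (2 + i)‖ ≤ 1 := fun p _ j i hi => by
    rw [map_add]
    refine (IsUltrametricDist.norm_add_le_max _ _).trans (max_le ?_ ?_)
    · simpa [map_ofNat] using IsUltrametricDist.norm_natCast_le_one (Om p) 2
    · exact ((pow_eq_one_iff_of_nonneg (norm_nonneg _) two_ne_zero).1 (by
        rw [← norm_pow, ← map_pow, hi]; simp)).le
  let J : ∀ (p : ℕ) [Fact p.Prime], Qbar →+* Om p := fun p _ =>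
    (IsAlgClosed.lift : Qbar →ₐ[ℚ] Om p)
  have : Fact (Nat.Prime 5) := ⟨Nat.prime_five⟩
  obtain ⟨i, hi, h5⟩ : ∃ i : Qbar, i ^ 2 = -1 ∧ ‖J 5 (2 + i)‖ = 1 := by
    obtain ⟨i, hi⟩ := IsAlgClosed.exists_pow_nat_eq (-1 : Qbar) two_pos
    by_contra h
    push Not at h
    have h1 := (IsUltrametricDist.norm_add_le_max _ _).trans_lt (max_lt
      ((le 5 (J 5) i hi).lt_of_ne (h i hi))
      ((le 5 (J 5) (-i) (by simpa using hi)).lt_of_ne (h (-i) (by simpa using hi))))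
    rw [← map_add, show 2 + i + (2 + -i) = ((2 : ℕ) : Qbar) ^ 2 by push_cast; ring, map_pow,
      map_natCast, norm_pow, nn 5 2 Nat.prime_two (by decide)] at h1
    simp at h1
  refine ⟨i, hi, fun p _ h2 => ⟨by simpa using nn p 2 Nat.prime_two h2, J p, ?_⟩⟩
  rcases eq_or_ne p 5 with rfl | h
  · exact h5
  have h1 := nn p 5 Nat.prime_five h
  rw [← map_natCast (J p), show ((5 : ℕ) : Qbar) = (2 + i) * (2 + -i) by
    push_cast; linear_combination hi, map_mul, norm_mul] at h1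
  exact le_antisymm (le p _ i hi)
    (h1.ge.trans (mul_le_of_le_one_right (norm_nonneg _) (le p _ (-i) (by simpa using hi))))

theorem rat_of {a b : Qbar[X]} (h : IsCoprime a b) (hb : b.Monic) :
    (algebraMap _ (RatFunc Qbar) a / algebraMap _ _ b).num = a ∧
      (algebraMap _ (RatFunc Qbar) a / algebraMap _ _ b).denom = b := by
  set f := algebraMap _ (RatFunc Qbar) a / algebraMap _ _ b
  have h1 : f.num * b = a * f.denom := (RatFunc.num_mul_eq_mul_denom_iff hb.ne_zero).2 rfl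
  have h2 : f.denom = b := eq_of_monic_of_associated f.monic_denom hb (associated_of_dvd_dvd
    (f.isCoprime_num_denom.symm.dvd_of_dvd_mul_left ⟨a, h1.trans (mul_comm _ _)⟩)
    (h.symm.dvd_of_dvd_mul_left ⟨f.num, h1.symm.trans (mul_comm _ _)⟩))
  exact ⟨mul_right_cancel₀ hb.ne_zero (h2 ▸ h1), h2⟩

theorem ex_f : ∃ f : RatFunc Qbar, DefinedOver ⊥ f ∧ ratDegree f = 4 ∧
    ∀ x, 4 * (x ^ 3 + x) ≠ 0 → ratMap f (some x) = some (db x) := by
  have e4 : (C 4⁻¹ : Qbar[X]) * 4 = 1 := by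
    rw [← map_ofNat C, ← map_mul, inv_mul_cancel₀ (by norm_num), map_one]
  obtain ⟨h1, h2⟩ := rat_of (a := C 4⁻¹ * (X ^ 2 - 1) ^ 2) (b := X ^ 3 + X)
    ⟨3 * X ^ 2 + 4, C 4⁻¹ * (-3 * X ^ 3 + 5 * X), by linear_combination e4⟩ (by monicity!)
  generalize algebraMap Qbar[X] (RatFunc Qbar) _ / algebraMap Qbar[X] (RatFunc Qbar) _ = f at h1 h2
  refine ⟨f, fun k => ?_, ?_, fun x hx => ?_⟩
  · rw [h1, h2, show (X ^ 2 - 1 : Qbar[X]) ^ 2 = X ^ 4 - X ^ 2 - X ^ 2 + 1 by ring]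
    simp only [coeff_C_mul, coeff_add, coeff_sub, coeff_X_pow, coeff_X, coeff_one]
    have h : ∀ (P : Prop) [Decidable P], (if P then (1 : Qbar) else 0) ∈ (⊥ : Subfield Qbar) :=
      fun P _ => by split_ifs <;> simp
    exact ⟨mul_mem (inv_mem (ofNat_mem _ 4))
      (add_mem (sub_mem (sub_mem (h _) (h _)) (h _)) (h _)), add_mem (h _) (h _)⟩
  · rw [ratDegree, h1, h2, show natDegree (C 4⁻¹ * (X ^ 2 - 1) ^ 2 : Qbar[X]) = 4 by
      compute_degree!, show natDegree (X ^ 3 + X : Qbar[X]) = 3 by compute_degree!]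
    rfl
  · have : x ^ 3 + x ≠ 0 := right_ne_zero_of_mul hx
    rw [ratMap, h1, h2, if_neg (by simpa using this)]
    simp only [eval_add, eval_pow, eval_X, eval_mul, eval_C, eval_sub, eval_one, db]
    congr 1
    field_simp

theorem main (Q : Subfield Qbar → Prop) (hP : ∀ (K : IF) (L : IntermediateField K Qbar), Fd K →
    IsAbelianGalois K L → (cyc L.toSubfield).Finite → Q L.toSubfield) :
    ∃ i : Qbar, i ^ 2 = -1 ∧ ∃ L : IntermediateField ℚ⟮i⟯ Qbar,
    IsAbelianGalois ℚ⟮i⟯ L ∧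
    (∀ E : Subfield Qbar, L.toSubfield ≤ E → L.toSubfield.relrank E < Cardinal.aleph0 →
      Q E) ∧
    (∃ f : RatFunc Qbar, DefinedOver ⊥ f ∧ ratDegree f = 4 ∧ ∃ S : Set Qbar, S ⊆ L ∧ S.Infinite ∧
      ratMap f '' (some '' S) = some '' S) ∧ ¬ PropertyUSB L.toSubfield := by
  obtain ⟨i, hi, hj⟩ := ex_i
  obtain ⟨S, mono, fin, inf, hdb, hg, hl⟩ := ell hi
  obtain ⟨f, f1, f2, f3⟩ := ex_f
  have gal : ∀ K : IF, i ∈ K → ∀ (σ ρ : GK K) (n : ℕ), ∀ x ∈ S n,
      σ x ∈ S n ∧ σ (ρ x) = ρ (σ x) ∧ (σ ^ (4 * 5 ^ n)) x = x := fun K hK σ ρ n x hx => by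
    rw [AlgEquiv.coe_pow]
    exact hg σ ρ (σ.commutes ⟨i, hK⟩) (ρ.commutes ⟨i, hK⟩) n x hx
  have ab : ∀ K : IF, i ∈ K → ∀ x ∈ IntermediateField.adjoin K (⋃ n, S n), Ab K x := fun K hK =>
    abg_adj fun x hx σ ρ => by
      obtain ⟨n, hn⟩ := Set.mem_iUnion.1 hx
      exact (gal K hK σ ρ n x hn).2.1
  have cy : ∀ K : IF, Fd K → i ∈ K →
      (cyc (IntermediateField.adjoin K (⋃ n, S n)).toSubfield).Finite := fun K _ hK => by
    obtain ⟨B, hB⟩ := two_pow K
    refine cyc_fin _ (max B (4 * Module.finrank ℚ K)) fun p k ζ hp hζ hc => ?_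
    obtain ⟨T, hT, h1⟩ := IntermediateField.exists_finset_of_mem_adjoin hc
    obtain ⟨n, hn⟩ := mono.directed_le.exists_mem_subset_of_finset_subset_biUnion hT
    replace h1 := IntermediateField.adjoin.mono K _ _ hn h1
    rcases eq_or_ne p 2 with rfl | h2
    · refine le_max_of_le_left (hB ζ k n hζ fun σ => ?_)
      generalize ζ + ζ⁻¹ = c at h1
      induction h1 using IntermediateField.adjoin_induction with
      | mem z hz => exact (gal K hK σ σ n z hz).2.2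
      | algebraMap c => exact AlgEquiv.commutes _ c
      | add a b _ _ ha hb => rw [map_add, ha, hb]
      | inv a _ ha => rw [map_inv₀, ha]
      | mul a b _ _ ha hb => rw [map_mul, ha, hb]
    · have := Fact.mk hp
      obtain ⟨n2, j, hj⟩ := hj p h2
      obtain ⟨h3, h4⟩ := root_norm (m := Module.finrank ℚ K) (hζ.map_of_injective j.injective)
      have e : j (2 - (ζ + ζ⁻¹)) = 2 - (j ζ + (j ζ)⁻¹) := by simp [map_ofNat]
      exact le_max_of_le_right (h4 (e ▸ layer K j (fin n)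
        (fun x hx σ ρ => (gal K hK σ ρ n x hx).2.1) (fun σ x hx => (gal K hK σ σ n x hx).1)
        (hl _ j n2 hj n) (sub_mem (ofNat_mem _ 2) h1) (e ▸ h3)))
  have im : ∀ n, ratMap f '' (some '' S n) = some '' S n := fun n => by
    conv_rhs => rw [← (hdb n).2]
    rw [Set.image_image, Set.image_image]
    exact Set.image_congr fun x hx => f3 x ((hdb n).1 x hx)
  have iK := IntermediateField.mem_adjoin_simple_self ℚ i
  refine ⟨i, hi, IntermediateField.adjoin ℚ⟮i⟯ (⋃ n, S n), abg_abel (ab _ iK), fun E hE hr => ?_,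
    ⟨f, f1, f2, _, IntermediateField.subset_adjoin _ _, inf, by
      simp only [Set.image_iUnion, im]⟩, fun h => inf ?_⟩
  · rw [Subfield.relrank_eq_rank_of_le hE] at hr
    have := Module.rank_lt_aleph0_iff.1 hr
    obtain ⟨s, hs⟩ : (Subfield.extendScalars hE).FG :=
      IntermediateField.essFiniteType_iff.1 inferInstance
    let N : IF := IntermediateField.adjoin ℚ (insert i (s : Set Qbar))
    have fN : Fd N := IntermediateField.finiteDimensional_adjoin fun x _ => int_Q x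
    have iN : i ∈ N := IntermediateField.subset_adjoin _ _ (Set.mem_insert _ _)
    have h1 : ∀ c : N, (c : Qbar) ∈ E := fun c =>
      (IntermediateField.adjoin_le_iff (T := E.toIntermediateField fun q => by simp)).2 (by
        rintro x (rfl | hx)
        · exact hE (IntermediateField.algebraMap_mem _ (⟨x, iK⟩ : ℚ⟮x⟯))
        · exact (hs ▸ IntermediateField.subset_adjoin _ _ hx : x ∈ Subfield.extendScalars hE)) c.2
    have h2 : E ≤ (IntermediateField.adjoin N (⋃ n, S n)).toSubfield := by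
      rw [← Subfield.extendScalars_toSubfield hE, ← hs, IntermediateField.adjoin_toSubfield,
        Subfield.closure_le]
      rintro x (⟨c, rfl⟩ | hx)
      · refine (show _ ≤ (IntermediateField.adjoin N (⋃ n, S n)).toSubfield from ?_) c.2
        rw [IntermediateField.adjoin_toSubfield, Subfield.closure_le]
        rintro x (⟨c, rfl⟩ | hx)
        · exact IntermediateField.algebraMap_mem _
            (⟨c, IntermediateField.adjoin_simple_le_iff.2 iN c.2⟩ : N)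
        · exact IntermediateField.subset_adjoin _ _ hx
      · exact IntermediateField.algebraMap_mem _
          (⟨x, IntermediateField.subset_adjoin _ _ (Set.mem_insert_of_mem _ hx)⟩ : N)
    exact hP N (E.toIntermediateField h1) fN (abg_abel fun x hx => ab N iN x (h2 hx))
      ((cy N fN iN).subset fun x hx => ⟨h2 hx.1, hx.2⟩)
  · obtain ⟨C, hC⟩ := all_HGT _ _ (by omega) (all_RF ⊤ f fun _ => ⟨trivial, trivial⟩)
    obtain ⟨H, c1, c2⟩ := all_CAN _ _ _ _ C (by omega) hC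
    refine Set.Finite.of_finite_image ((h f (by omega) H ⟨c1, C, c2⟩).2.subset ?_)
      (Option.some_injective _).injOn
    rintro _ ⟨x, hx, rfl⟩
    obtain ⟨n, hn⟩ := Set.mem_iUnion.1 hx
    refine ⟨Or.inr ⟨x, IntermediateField.subset_adjoin _ _ hx, rfl⟩, ((fin n).image some).subset ?_⟩
    rintro _ ⟨k, rfl⟩
    exact Set.MapsTo.iterate (Set.mapsTo_iff_image_subset.2 (im n).le) k ⟨x, hn, rfl⟩

end Pool.Agent.P.MP_8d2e9f_nt.PR
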