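import Pool.Agent.P.MP_8d2e9f_nt.PR.Ell

/-! The tower of `(2 + i) ^ n`-torsion points. -/

set_option autoImplicit false

namespace Pool.Agent.P.MP_8d2e9f_nt.PR

open AddSubgroup
open scoped Classical

section grp

variable {A : Type*} [AddCommGroup A] {π : A →+ A} {P : ℕ → A}
  (h5 : ∀ Q, 4 • π Q - π (π Q) = 5 • Q) (h0 : π (P 0) = 0) (hP : ∀ n, π (P (n + 1)) = P n)

include h5 h0 hP

theorem tow_five (n : ℕ) : 5 ^ n • P n = 4 ^ n • P 0 := by
  induction n with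
  | zero => simp
  | succ n ih =>
    rw [pow_succ, mul_smul, ← h5, hP, smul_sub, smul_comm, ← map_nsmul, ih, map_nsmul, h0,
      smul_zero, sub_zero, smul_smul, ← pow_succ']

theorem tow_zero (n : ℕ) : 5 ^ (n + 1) • P n = 0 := by
  rw [pow_succ', mul_smul, tow_five h5 h0 hP, smul_comm, ← h5, h0, map_zero]
  simp

theorem tow_iter (n : ℕ) : π^[n] (P n) = P 0 := by
  induction n with
  | zero => rfl
  | succ n ih => rw [Function.iterate_succ_apply, hP, ih]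

theorem tow_cyc (hk : ∀ Q, π Q = 0 → Q ∈ zmultiples (P 0)) (n : ℕ) :
    ∀ Q, π^[n + 1] Q = 0 → Q ∈ zmultiples (P n) := by
  induction n with
  | zero => exact hk
  | succ n ih =>
    intro Q hQ
    obtain ⟨a, ha⟩ := mem_zmultiples_iff.1 (ih (π Q) hQ)
    have h1 : 16 ^ (n + 1) • P 0 = P 0 := by
      have : 16 • P 0 = P 0 := by
        rw [show 16 = 3 * 5 ^ (0 + 1) + 1 by norm_num, add_smul, mul_smul, tow_zero h5 h0 hP]
        simp
      generalize n + 1 = k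
      induction k with
      | zero => simp
      | succ k ih => rw [pow_succ, mul_smul, this, ih]
    have h2 : P 0 ∈ zmultiples (P (n + 1)) := by
      rw [← h1, show 16 = 4 * 4 by norm_num, mul_pow, mul_smul, ← tow_five h5 h0 hP]
      exact nsmul_mem (nsmul_mem (mem_zmultiples _) _) _
    have h3 := zmultiples_le_of_mem h2 (hk (Q - a • P (n + 1)) (by
      rw [map_sub, map_zsmul, hP, ha, sub_self]))
    simpa using add_mem h3 (zsmul_mem (mem_zmultiples _) a)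

theorem tow_act (hk : ∀ Q, π Q = 0 → Q ∈ zmultiples (P 0)) (n : ℕ) (g : A →+ A)
    (hg : ∀ Q, g (π Q) = π (g Q)) (g0 : g (P 0) ≠ 0) :
    ∃ a : ℕ, a.Coprime 5 ∧ ∀ Q, π^[n + 1] Q = 0 → g Q = a • Q := by
  have hc : ∀ k Q, g (π^[k] Q) = π^[k] (g Q) := fun k Q =>
    (Function.Commute.iterate_right (f := g) (g := π) hg k) Q
  have h1 : π^[n + 1] (P n) = 0 := by rw [Function.iterate_succ_apply', tow_iter h5 h0 hP, h0]
  obtain ⟨a, ha⟩ := (isOfFinAddOrder_iff_nsmul_eq_zero.2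
    ⟨_, by positivity, tow_zero h5 h0 hP n⟩).mem_multiples_iff_mem_zmultiples.2
    (tow_cyc h5 h0 hP hk n (g (P n)) (by rw [← hc, h1, map_zero]))
  simp only at ha
  refine ⟨a, ((Nat.Prime.coprime_iff_not_dvd Nat.prime_five).2 ?_).symm, fun Q hQ => ?_⟩
  · rintro ⟨b, rfl⟩
    have h2 := tow_zero h5 h0 hP 0
    refine g0 ?_
    rw [← tow_iter h5 h0 hP n, hc, ← ha, iterate_map_nsmul, tow_iter h5 h0 hP, mul_comm, mul_smul]
    simpa using congrArg (b • ·) h2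
  · obtain ⟨b, rfl⟩ := mem_zmultiples_iff.1 (tow_cyc h5 h0 hP hk n Q hQ)
    rw [map_zsmul, ← ha, smul_comm]

end grp

variable {F : Type} [Field F] [CharZero F] {i : F} (hi : i ^ 2 = -1)

theorem loc {Ω : Type} [NormedField Ω] [IsUltrametricDist Ω] (j : F →+* Ω) (h2 : ‖(2 : Ω)‖ = 1)
    (hπ : ‖j (2 + i)‖ = 1) (n : ℕ) :
    (∀ P, P ≠ 0 → (pm hi)^[n] P = 0 → ‖j (xc P)‖ ≤ 1) ∧
      ∀ P Q, P ≠ 0 → Q ≠ 0 → (pm hi)^[n] P = 0 → (pm hi)^[n] Q = 0 →
        ‖j (xc P) - j (xc Q)‖ < 1 → xc P = xc Q := by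
  have ad : ∀ a b : Ω, ‖b‖ < ‖a‖ → ‖a + b‖ = ‖a‖ := fun a b h => by
    rw [IsUltrametricDist.norm_add_eq_max_of_norm_ne_norm h.ne', max_eq_left h.le]
  have le : ∀ a b : Ω, ‖a‖ ≤ 1 → ‖b‖ ≤ 1 → ‖a + b‖ ≤ 1 := fun a b h h' =>
    (IsUltrametricDist.norm_add_le_max _ _).trans (max_le h h')
  have lt : ∀ a b : Ω, ‖a‖ < 1 → ‖b‖ < 1 → ‖a + b‖ < 1 := fun a b h h' =>
    (IsUltrametricDist.norm_add_le_max _ _).trans_lt (max_lt h h')
  have h1 : ∀ P, P ≠ 0 → (pm hi)^[n] P = 0 → ‖j (xc P)‖ ≤ 1 := by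
    have ni : ‖j i‖ = 1 := (pow_eq_one_iff_of_nonneg (norm_nonneg _) two_ne_zero).1 (by
      rw [← norm_pow, ← map_pow, hi]; simp)
    have nb : ‖j (1 - 2 * i)‖ = 1 := by
      rw [show 1 - 2 * i = -i * (2 + i) by linear_combination hi, map_mul, norm_mul, hπ, map_neg,
        norm_neg, ni, one_mul]
    induction n with
    | zero => exact fun P h h' => absurd h' h
    | succ n ih =>
      rintro (_ | ⟨x, y, h⟩) hP hn
      · exact absurd rfl hP
      by_contra hx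
      replace hx : 1 < ‖j x‖ := not_le.1 hx
      have x2 : 1 < ‖j (x ^ 2)‖ := by
        rw [map_pow, norm_pow]
        exact one_lt_pow₀ hx two_ne_zero
      have e1 : ‖j ((1 - 2 * i) * x ^ 2 + 1)‖ = ‖j (x ^ 2)‖ := by
        rw [map_add, ad] <;> rw [map_mul, norm_mul, nb, one_mul]
        simpa using x2
      have e2 : ‖j (x ^ 2 + (1 - 2 * i))‖ = ‖j (x ^ 2)‖ := by
        rw [map_add, ad _ _ (nb ▸ x2)]
      obtain ⟨h3, h4⟩ := (form hi h).2 fun e => by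
        rw [e, map_zero, norm_zero] at e1
        linarith
      have h5 := congrArg (fun t => ‖j t‖) h4
      simp only [map_mul j (xc _), map_mul j (-x), map_pow j _ 2, norm_mul, norm_pow, map_neg,
        norm_neg] at h5
      rw [e1, e2, mul_left_inj' (by positivity)] at h5
      exact absurd (h5 ▸ ih _ h3 hn) (not_le.2 hx)
  refine ⟨h1, fun P Q hP hQ nP nQ h => by_contra fun hx => ?_⟩
  obtain ⟨s1, s2, s3, s4⟩ := sp hP hQ hx
  have a1 := h1 _ s1 (by rw [iterate_map_add, nP, nQ, add_zero])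
  have a2 := h1 _ s2 (by rw [iterate_map_sub, nP, nQ, sub_zero])
  have a3 := h1 _ hQ nQ
  have t3 := congrArg (fun t => ‖j t‖) s3
  have t4 := congrArg (fun t => ‖j t‖) s4
  simp only [map_mul, map_pow, map_sub, map_add, map_one, map_ofNat, norm_mul, norm_pow,
    h2, one_mul] at t3 t4
  generalize j (xc P) = x at *
  generalize j (xc Q) = x' at *
  have d2 : ‖x - x'‖ ^ 2 < 1 := pow_lt_one₀ (norm_nonneg _) h two_ne_zero
  have u1 : ‖x * x' - 1‖ < 1 := lt_of_pow_lt_pow_left₀ 2 zero_le_one (by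
    rw [← t3, one_pow]
    exact (mul_le_of_le_one_left (by positivity)
      (mul_le_one₀ a1 (norm_nonneg _) a2)).trans_lt d2)
  have u2 : ‖x * x' + 1‖ = 1 := by
    rw [show x * x' + 1 = 2 + (x * x' - 1) by ring, ad _ _ (h2 ▸ u1), h2]
  have u3 : ‖x + x'‖ < 1 := by
    rw [u2, one_mul] at t4
    rw [← t4]
    exact (mul_le_of_le_one_left (by positivity) (le _ _ a1 a2)).trans_lt d2
  have u4 : ‖x‖ < 1 := by
    have := lt _ _ u3 h
    rwa [show x + x' + (x - x') = 2 * x by ring, norm_mul, h2, one_mul] at this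
  have u5 : ‖x * x'‖ < 1 := by
    rw [norm_mul]
    exact (mul_le_of_le_one_right (norm_nonneg _) a3).trans_lt u4
  have := lt _ _ u5 (norm_neg (x * x' - 1) ▸ u1)
  simp at this

/-- the doubling map on abscissae -/
def db (x : F) : F := (x ^ 2 - 1) ^ 2 / (4 * (x ^ 3 + x))

include hi in
theorem ell [IsAlgClosed F] : ∃ S : ℕ → Set F, Monotone S ∧ (∀ n, (S n).Finite) ∧
    (⋃ n, S n).Infinite ∧ (∀ n, (∀ x ∈ S n, 4 * (x ^ 3 + x) ≠ 0) ∧ db '' S n = S n) ∧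
    (∀ σ ρ : F →+* F, σ i = i → ρ i = i → ∀ n, ∀ x ∈ S n,
      σ x ∈ S n ∧ σ (ρ x) = ρ (σ x) ∧ σ^[4 * 5 ^ n] x = x) ∧
    ∀ (Ω : Type) [NormedField Ω] [IsUltrametricDist Ω] (j : F →+* Ω), ‖(2 : Ω)‖ = 1 →
      ‖j (2 + i)‖ = 1 → ∀ n, ∀ x ∈ S n, ‖j x‖ ≤ 1 ∧ ∀ y ∈ S n, ‖j x - j y‖ < 1 → x = y := by
  obtain ⟨P0, p0, h0⟩ := ker_ne hi
  choose r hr using surj hi
  let P : ℕ → (W F).Point := fun n => r^[n] P0
  have hP : ∀ n, pm hi (P (n + 1)) = P n := fun n => by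
    simp only [P, Function.iterate_succ_apply', hr]
  have h5 := pm_five hi
  have hk : ∀ Q, pm hi Q = 0 → Q ∈ zmultiples (P 0) := fun Q => ker_cyc hi p0 h0
  let M : ℕ → Set (W F).Point := fun n => {Q | Q ≠ 0 ∧ (pm hi)^[n + 1] Q = 0}
  have mono : Monotone M := monotone_nat_of_le_succ fun n Q h => ⟨h.1, by
    rw [Function.iterate_succ_apply', h.2, map_zero]⟩
  have fin : ∀ n, (M n).Finite := fun n => (isOfFinAddOrder_iff_nsmul_eq_zero.2
    ⟨_, by positivity, tow_zero h5 h0 hP n⟩).finite_zmultiples.subset fun Q h =>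
      tow_cyc h5 h0 hP hk n Q h.2
  have mP : ∀ n, P n ∈ M n := fun n => ⟨fun h => p0 (by
    have := tow_iter h5 h0 hP n
    rwa [h, iterate_map_zero, eq_comm] at this), by
      rw [Function.iterate_succ_apply', tow_iter h5 h0 hP]; exact h0⟩
  have kill : ∀ n, ∀ Q ∈ M n, 5 ^ (n + 1) • Q = 0 := fun n Q h => by
    obtain ⟨a, rfl⟩ := mem_zmultiples_iff.1 (tow_cyc h5 h0 hP hk n Q h.2)
    rw [smul_comm, tow_zero h5 h0 hP, smul_zero]
  have half : ∀ n, ∃ k, ∀ Q ∈ M n, 2 • k • Q = Q := fun n => by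
    obtain ⟨k, hk⟩ : Odd (5 ^ (n + 1)) := Odd.pow (by decide)
    refine ⟨k + 1, fun Q h => ?_⟩
    rw [smul_smul, show 2 * (k + 1) = 5 ^ (n + 1) + 1 by omega, add_smul, kill n Q h]
    simp
  have two : ∀ n, ∀ Q ∈ M n, 2 • Q ∈ M n := fun n Q h => by
    obtain ⟨k, hk⟩ := half n
    exact ⟨fun e => h.1 (by rw [← hk Q h, smul_comm, e, smul_zero]), by
      rw [iterate_map_nsmul, h.2, smul_zero]⟩
  refine ⟨fun n => xc '' M n, fun a b h => Set.image_mono (mono h), fun n => (fin n).image _,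
    Set.infinite_of_injective_forall_mem (f := fun n => xc (P n)) (Function.Injective.of_lt_imp_ne
      fun a b h e => p0 ?_) fun n => Set.mem_iUnion.2 ⟨n, _, mP n, rfl⟩,
    fun n => ⟨?_, subset_antisymm ?_ ?_⟩, fun σ ρ hσ hρ n => ?_, fun Ω _ _ j h2 hπ n => ?_⟩
  · obtain ⟨c, rfl⟩ := Nat.exists_eq_add_of_lt h
    have h1 := (mono (Nat.le_add_right a c) (mP a)).2
    have h2 := tow_iter h5 h0 hP (a + c + 1)
    rcases xc_iff (mP _).1 (mP _).1 e.symm with e | e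
    · rwa [e, h1, eq_comm] at h2
    · rwa [e, iterate_map_neg, h1, neg_zero, eq_comm] at h2
  · rintro _ ⟨Q, h, rfl⟩
    exact (dbl (two n Q h).1).1
  · rintro _ ⟨_, ⟨Q, h, rfl⟩, rfl⟩
    exact ⟨_, two n Q h, (dbl (two n Q h).1).2⟩
  · rintro _ ⟨Q, h, rfl⟩
    obtain ⟨k, hk⟩ := half n
    have h1 : k • Q ∈ M n := ⟨fun e => h.1 (by rw [← hk Q h, e, smul_zero]), by
      rw [iterate_map_nsmul, h.2, smul_zero]⟩
    exact ⟨_, ⟨_, h1, rfl⟩, by rw [db, ← (dbl (two n _ h1).1).2, hk Q h]⟩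
  · rintro _ ⟨Q, h, rfl⟩
    obtain ⟨a, a5, ha⟩ := tow_act h5 h0 hP hk n (gal σ) (gal_pm hi σ hσ) (gal_ne σ p0)
    obtain ⟨b, -, hb⟩ := tow_act h5 h0 hP hk n (gal ρ) (gal_pm hi ρ hρ) (gal_ne ρ p0)
    refine ⟨⟨gal σ Q, ⟨gal_ne σ h.1, by rw [ha Q h.2, iterate_map_nsmul, h.2, smul_zero]⟩,
      xc_gal σ Q⟩, ?_, ?_⟩
    · rw [← gal_comp, ← gal_comp, ha Q h.2, hb Q h.2, map_nsmul, map_nsmul, ha Q h.2, hb Q h.2,
        smul_comm]
    · have h1 : ∀ k, σ^[k] (xc Q) = xc (a ^ k • Q) := fun k => by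
        induction k with
        | zero => simp
        | succ k ih => rw [Function.iterate_succ_apply', ih, ← xc_gal, map_nsmul, ha Q h.2,
            smul_smul, pow_succ]
      have h2 := Nat.ModEq.pow_totient (a5.pow_right (n + 1))
      rw [Nat.totient_prime_pow_succ Nat.prime_five, mul_comm] at h2
      obtain ⟨c, hc⟩ := (Nat.modEq_iff_exists_eq_add (Nat.one_le_pow _ _
        (Nat.pos_of_ne_zero (by rintro rfl; simp at a5)))).1 h2.symm
      rw [h1, hc, add_smul, mul_comm, mul_smul, kill n Q h]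
      simp
  · rintro _ ⟨Q, h, rfl⟩
    obtain ⟨h3, h4⟩ := loc hi j h2 hπ (n + 1)
    refine ⟨h3 Q h.1 h.2, ?_⟩
    rintro _ ⟨Q', h', rfl⟩
    exact h4 Q Q' h.1 h'.1 h.2 h'.2

end Pool.Agent.P.MP_8d2e9f_nt.PR
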